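import Pool.Agent.Helper48.SL.Defs

/-!
# The counts in the plane over a field with `2k` elements

The statements of `Helper48/SL/S5_Field`.
-/

set_option autoImplicit false
set_option linter.unusedSectionVars false

namespace Pool.Agent.Helper32.SL

open Pool.Agent.Helper32.Arc (AS AS.zero AS.self AS.add AS.add_iff card_AS Z card_Z exists_sq)
open Pool.Agent.Helper48.SL

variable {F : Type} [Field F] [Fintype F] [CharP F 2] (P : Par F)

/-! ### The trace bit -/

omit [CharP F 2] in
open Classical in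
lemma tb_false {a : F} : tb a = false ↔ AS a := by
  rw [tb, decide_eq_false_iff_not, not_not]

omit [CharP F 2] in
open Classical in
lemma tb_true {a : F} : tb a = true ↔ ¬ AS a := by
  rw [tb, decide_eq_true_iff]

open Classical in
lemma card_not_AS [DecidablePred fun z : F => ¬ AS z] :
    2 * Fintype.card {z : F // ¬ AS z} = Fintype.card F := by
  convert card_Z (F := F)

open Classical in
lemma AS_add_of_not {a b : F} (ha : ¬ AS a) (hb : ¬ AS b) : AS (a + b) := by
  have h1 : Function.Bijective (fun y : {y : F // AS y} => (⟨a + y.1, fun h => ha (by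
      rw [add_comm] at h
      exact (AS.add_iff y.2).1 h)⟩ : Z F)) := by
    rw [Fintype.bijective_iff_injective_and_card]
    constructor
    · intro y y' h
      have h2 := congrArg Subtype.val h
      exact Subtype.ext (add_left_cancel h2)
    · have h2 := card_AS (F := F)
      have h3 := card_not_AS (F := F)
      omega
  obtain ⟨⟨y, hy⟩, h2⟩ := h1.2 ⟨b, hb⟩
  have h3 : a + y = b := congrArg Subtype.val h2
  rw [← h3, CharTwo.add_cancel_left]
  exact hy

theorem tb_add (a b : F) : tb (a + b) = xor (tb a) (tb b) := by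
  by_cases ha : AS a
  · rw [tb_false.2 ha, Bool.false_xor]
    by_cases hb : AS b
    · rw [tb_false.2 hb, tb_false.2 (ha.add hb)]
    · rw [tb_true.2 hb, tb_true.2 fun h => hb ((AS.add_iff ha).1 h)]
  · rw [tb_true.2 ha]
    by_cases hb : AS b
    · rw [tb_false.2 hb, tb_true.2 fun h => ha (by
        rw [add_comm] at h
        exact (AS.add_iff hb).1 h)]
      rfl
    · rw [tb_true.2 hb, tb_false.2 (AS_add_of_not ha hb)]
      rfl

lemma tb_zero : tb (0 : F) = false := tb_false.2 AS.zero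

lemma tb_sq (a : F) : tb (a ^ 2) = tb a := by
  have h1 := tb_add a (a ^ 2)
  rw [tb_false.2 (AS.self a)] at h1
  generalize tb a = b at h1 ⊢
  generalize tb (a ^ 2) = c at h1 ⊢
  revert b c
  decide

open Classical in
/-- Half of the multiples have trace bit `true`, also after a shift. -/
lemma sum_tb (v w : F) (hv : v ≠ 0) :
    2 * ∑ x : F, (tb (v * x + w)).toNat = Fintype.card F := by
  have h1 : ∑ x : F, (tb (v * x + w)).toNat = ∑ x : F, (tb x).toNat := by
    refine Fintype.sum_bijective (fun x => v * x + w) ?_ _ _ fun x => rfl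
    exact ⟨fun x y h => mul_left_cancel₀ hv (add_right_cancel h),
      fun y => ⟨v⁻¹ * (y - w), by
        show v * (v⁻¹ * (y - w)) + w = y
        rw [mul_inv_cancel_left₀ hv, sub_add_cancel]⟩⟩
  have h2 : ∑ x : F, (tb x).toNat = Fintype.card {z : F // ¬ AS z} := by
    rw [Fintype.card_subtype, Finset.card_filter]
    refine Finset.sum_congr rfl fun x _ => ?_
    by_cases hx : AS x
    · rw [tb_false.2 hx, if_neg (not_not.2 hx)]
      rfl
    · rw [tb_true.2 hx, if_pos hx]
      rfl
  rw [h1, h2, card_not_AS]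

lemma sq_sum (a b c : F) (h : a + b + c = 0) : a ^ 2 + b ^ 2 + c ^ 2 = 0 := by
  rw [← CharTwo.add_sq, ← CharTwo.add_sq, h, zero_pow two_ne_zero]

/-! ### The bits -/

theorem bit_on (i : Fin 3) {l p : F × F} (h : On l p) : bit P i p = tb (u P i l * p.1) := by
  have h1 : P.κ i ^ 2 * (p.1 * p.2) + P.τ i * p.1 =
      (P.κ i * l.1 * p.1) ^ 2 + (P.κ i ^ 2 * l.2 + P.τ i) * p.1 := by
    rw [On] at h
    rw [h]
    ring
  have h2 : u P i l * p.1 = P.κ i * l.1 * p.1 + (P.κ i ^ 2 * l.2 + P.τ i) * p.1 := by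
    rw [u]
    ring
  rw [bit, h1, h2, tb_add, tb_add, tb_sq]

lemma xor_bit (p : F × F) : xor (xor (bit P 0 p) (bit P 1 p)) (bit P 2 p) = tb p.1 := by
  rw [bit, bit, bit, ← tb_add, ← tb_add]
  congr 1
  have h1 := sq_sum _ _ _ P.κ_sum
  have h2 := P.τ_sum
  linear_combination (p.1 * p.2) * h1 + p.1 * h2

lemma card_bits (p : F × F) : (Finset.univ.filter fun i => bit P i p = true).card =
    (bit P 0 p).toNat + (bit P 1 p).toNat + (bit P 2 p).toNat := by
  rw [Finset.card_filter, Fin.sum_univ_three]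
  generalize bit P 0 p = a
  generalize bit P 1 p = b
  generalize bit P 2 p = c
  revert a b c
  decide

open Classical in
/-- The majority of three bits. -/
lemma hub_nat (p : F × F) : 2 * (if IsHub P p then 1 else 0) + (tb p.1).toNat =
    (bit P 0 p).toNat + (bit P 1 p).toNat + (bit P 2 p).toNat := by
  rw [← xor_bit P p]
  have h1 : IsHub P p ↔ 2 ≤ (bit P 0 p).toNat + (bit P 1 p).toNat + (bit P 2 p).toNat := by
    rw [IsHub, card_bits]
  rw [if_congr h1 rfl rfl]
  generalize bit P 0 p = a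
  generalize bit P 1 p = b
  generalize bit P 2 p = c
  revert a b c
  decide

open Classical in
/-- A sum over the points of a line. -/
lemma sum_on {M : Type*} [AddCommMonoid M] (l : F × F) (f : F × F → M) :
    ∑ p ∈ Finset.univ.filter (fun p : F × F => On l p), f p =
      ∑ x : F, f (x, l.1 ^ 2 * x + l.2) := by
  symm
  refine Finset.sum_bij (fun x _ => (x, l.1 ^ 2 * x + l.2)) ?_ ?_ ?_ ?_
  · intro x _
    rw [Finset.mem_filter]
    exact ⟨Finset.mem_univ _, rfl⟩
  · intro x _ y _ h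
    exact congrArg Prod.fst h
  · intro p hp
    rw [Finset.mem_filter] at hp
    exact ⟨p.1, Finset.mem_univ _, Prod.ext rfl hp.2.symm⟩
  · intro x _
    rfl

open Classical in
theorem card_line {l : F × F} (h : ∀ i, u P i l ≠ 0) :
    2 * (Finset.univ.filter fun p : F × F => On l p ∧ IsHub P p).card = Fintype.card F := by
  have h1 : (Finset.univ.filter fun p : F × F => On l p ∧ IsHub P p).card =
      ∑ x : F, if IsHub P (x, l.1 ^ 2 * x + l.2) then 1 else 0 := by
    rw [← sum_on l fun p => if IsHub P p then 1 else 0, ← Finset.sum_filter, Finset.filter_filter,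
      Finset.card_eq_sum_ones]
  have h2 : ∀ x : F, 2 * (if IsHub P (x, l.1 ^ 2 * x + l.2) then 1 else 0) +
      (tb x).toNat = (tb (u P 0 l * x)).toNat + (tb (u P 1 l * x)).toNat +
        (tb (u P 2 l * x)).toNat := by
    intro x
    have h3 := hub_nat P (x, l.1 ^ 2 * x + l.2)
    rwa [bit_on P 0 (l := l) (p := (x, l.1 ^ 2 * x + l.2)) rfl,
      bit_on P 1 (l := l) (p := (x, l.1 ^ 2 * x + l.2)) rfl,
      bit_on P 2 (l := l) (p := (x, l.1 ^ 2 * x + l.2)) rfl] at h3
  have h3 : 2 * (∑ x : F, if IsHub P (x, l.1 ^ 2 * x + l.2) then 1 else 0) +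
      ∑ x : F, (tb x).toNat = ∑ x : F, (tb (u P 0 l * x)).toNat +
        ∑ x : F, (tb (u P 1 l * x)).toNat + ∑ x : F, (tb (u P 2 l * x)).toNat := by
    rw [Finset.mul_sum, ← Finset.sum_add_distrib, ← Finset.sum_add_distrib,
      ← Finset.sum_add_distrib]
    exact Finset.sum_congr rfl fun x _ => h2 x
  have h4 := sum_tb (1 : F) 0 one_ne_zero
  have h5 := sum_tb (u P 0 l) 0 (h 0)
  have h6 := sum_tb (u P 1 l) 0 (h 1)
  have h7 := sum_tb (u P 2 l) 0 (h 2)
  simp only [one_mul, add_zero] at h4 h5 h6 h7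
  rw [h1]
  omega

open Classical in
theorem card_hub_set : 4 * ((Finset.univ.filter fun p : F × F => IsHub P p).card : ℝ) =
    2 * (Fintype.card F : ℝ) ^ 2 - 3 * Fintype.card F := by
  have hb : ∀ i, 2 * ∑ p : F × F, (bit P i p).toNat + Fintype.card F =
      Fintype.card F * Fintype.card F := by
    intro i
    rw [Fintype.sum_prod_type, ← Finset.add_sum_erase _ _ (Finset.mem_univ (0 : F))]
    have h1 : ∑ y : F, (bit P i (0, y)).toNat = 0 := by
      apply Finset.sum_eq_zero
      intro y _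
      rw [bit, zero_mul, mul_zero, mul_zero, add_zero, tb_zero]
      rfl
    have h2 : ∀ x ∈ (Finset.univ : Finset F).erase 0,
        2 * ∑ y : F, (bit P i (x, y)).toNat = Fintype.card F := by
      intro x hx
      rw [← sum_tb (P.κ i ^ 2 * x) (P.τ i * x)
        (mul_ne_zero (pow_ne_zero 2 (P.κ_ne i)) (Finset.ne_of_mem_erase hx))]
      congr 1
      refine Finset.sum_congr rfl fun y _ => ?_
      rw [bit]
      congr 2
      ring
    rw [h1, zero_add, Finset.mul_sum, Finset.sum_congr rfl h2, Finset.sum_const,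
      Finset.card_erase_of_mem (Finset.mem_univ _), Finset.card_univ, smul_eq_mul]
    have h3 : 0 < Fintype.card F := Fintype.card_pos
    obtain ⟨m, hm⟩ : ∃ m, Fintype.card F = m + 1 := ⟨Fintype.card F - 1, by omega⟩
    rw [hm]
    simp only [Nat.add_sub_cancel]
    ring
  have ht : 2 * ∑ p : F × F, (tb p.1).toNat = Fintype.card F * Fintype.card F := by
    rw [Fintype.sum_prod_type]
    have h1 : ∀ x : F, ∑ _y : F, (tb x).toNat = Fintype.card F * (tb x).toNat := by
      intro x
      rw [Finset.sum_const, Finset.card_univ, smul_eq_mul]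
    rw [Finset.sum_congr rfl fun x _ => h1 x, ← Finset.mul_sum]
    have h4 := sum_tb (1 : F) 0 one_ne_zero
    simp only [one_mul, add_zero] at h4
    calc 2 * (Fintype.card F * ∑ x : F, (tb x).toNat) =
        Fintype.card F * (2 * ∑ x : F, (tb x).toNat) := by ring
      _ = _ := by rw [h4]
  have h3 : 2 * (Finset.univ.filter fun p : F × F => IsHub P p).card +
      ∑ p : F × F, (tb p.1).toNat = ∑ p : F × F, (bit P 0 p).toNat +
        ∑ p : F × F, (bit P 1 p).toNat + ∑ p : F × F, (bit P 2 p).toNat := by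
    rw [Finset.card_filter, Finset.mul_sum, ← Finset.sum_add_distrib, ← Finset.sum_add_distrib,
      ← Finset.sum_add_distrib]
    exact Finset.sum_congr rfl fun p _ => hub_nat P p
  have h0 := hb 0
  have h1 := hb 1
  have h2 := hb 2
  have h4 : 4 * (Finset.univ.filter fun p : F × F => IsHub P p).card + 3 * Fintype.card F =
      2 * (Fintype.card F * Fintype.card F) := by omega
  have h5 : 4 * ((Finset.univ.filter fun p : F × F => IsHub P p).card : ℝ) +
      3 * Fintype.card F = 2 * ((Fintype.card F : ℝ) * Fintype.card F) := by exact_mod_cast h4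
  rw [sq]
  linarith

/-! ### The lines through a point -/

open Classical in
/-- The equation `z ^ 2 + z = a`. -/
lemma card_roots (a : F) : (Finset.univ.filter fun z : F => z ^ 2 + z = a).card =
    if tb a = false then 2 else 0 := by
  split_ifs with h
  · obtain ⟨b, rfl⟩ := tb_false.1 h
    have h4 : (Finset.univ.filter fun z : F => z ^ 2 + z = b ^ 2 + b) = {b, b + 1} := by
      ext z
      simp only [Finset.mem_filter, Finset.mem_univ, true_and, Finset.mem_insert,
        Finset.mem_singleton]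
      constructor
      · intro h
        have h5 : (z + b) * (z + b + 1) = 0 := by
          have h6 : (z + b) * (z + b + 1) = (z ^ 2 + z) + (b ^ 2 + b) + (z * b + z * b) := by ring
          rw [h6, h, CharTwo.add_self_eq_zero, CharTwo.add_self_eq_zero, add_zero]
        rcases mul_eq_zero.1 h5 with h6 | h6
        · exact Or.inl (CharTwo.add_eq_zero.1 h6)
        · rw [add_assoc] at h6
          exact Or.inr (CharTwo.add_eq_zero.1 h6)
      · rintro (rfl | rfl)
        · rfl
        · rw [CharTwo.add_sq, one_pow]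
          have : b ^ 2 + 1 + (b + 1) = b ^ 2 + b + (1 + 1) := by ring
          rw [this, CharTwo.add_self_eq_zero, add_zero]
    rw [h4, Finset.card_pair]
    intro h
    exact one_ne_zero (left_eq_add.1 h)
  · rw [Finset.card_eq_zero, Finset.filter_eq_empty_iff]
    intro z _ hz
    exact h (tb_false.2 ⟨z, hz⟩)

open Classical in
/-- A sum over the lines through a point. -/
lemma sum_thr {M : Type*} [AddCommMonoid M] (p : F × F) (f : F × F → M) :
    ∑ l ∈ Finset.univ.filter (fun l : F × F => On l p), f l =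
      ∑ d : F, f (d, p.2 + d ^ 2 * p.1) := by
  symm
  refine Finset.sum_bij (fun d _ => (d, p.2 + d ^ 2 * p.1)) ?_ ?_ ?_ ?_
  · intro d _
    rw [Finset.mem_filter]
    refine ⟨Finset.mem_univ _, ?_⟩
    show p.2 = d ^ 2 * p.1 + (p.2 + d ^ 2 * p.1)
    rw [add_comm p.2, CharTwo.add_cancel_left]
  · intro x _ y _ h
    exact congrArg Prod.fst h
  · intro l hl
    rw [Finset.mem_filter] at hl
    refine ⟨l.1, Finset.mem_univ _, Prod.ext rfl ?_⟩
    show p.2 + l.1 ^ 2 * p.1 = l.2
    have h1 : p.2 = l.1 ^ 2 * p.1 + l.2 := hl.2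
    rw [h1, add_comm, CharTwo.add_cancel_left]
  · intro x _
    rfl

open Classical in
/-- The lines through `p` on which a form has a given value. -/
lemma card_u_eq (i : Fin 3) (t : F) {p : F × F} (hx : p.1 ≠ 0) :
    ((Finset.univ.filter fun l : F × F => On l p).filter fun l => u P i l = t).card =
      if bit P i p = tb (t * p.1) then 2 else 0 := by
  rw [Finset.card_filter, sum_thr p fun l => if u P i l = t then 1 else 0]
  have hk : P.κ i * p.1 ≠ 0 := mul_ne_zero (P.κ_ne i) hx
  have h1 : ∀ d : F, (u P i (d, p.2 + d ^ 2 * p.1) = t) ↔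
      (P.κ i * p.1 * d) ^ 2 + P.κ i * p.1 * d =
        (P.κ i ^ 2 * (p.1 * p.2) + P.τ i * p.1) + t * p.1 := by
    intro d
    rw [u]
    show P.κ i * d + P.κ i ^ 2 * (p.2 + d ^ 2 * p.1) + P.τ i = t ↔ _
    rw [← mul_left_inj' hx (a := P.κ i * d + P.κ i ^ 2 * (p.2 + d ^ 2 * p.1) + P.τ i),
      ← CharTwo.add_eq_zero, ← CharTwo.add_eq_zero (a := (P.κ i * p.1 * d) ^ 2 + _)]
    have h2 : (P.κ i * p.1 * d) ^ 2 + P.κ i * p.1 * d +
        (P.κ i ^ 2 * (p.1 * p.2) + P.τ i * p.1 + t * p.1) =
        (P.κ i * d + P.κ i ^ 2 * (p.2 + d ^ 2 * p.1) + P.τ i) * p.1 + t * p.1 := by ring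
    rw [h2]
  have h3 : ∑ d : F, (if u P i (d, p.2 + d ^ 2 * p.1) = t then 1 else 0) =
      ∑ z : F, if z ^ 2 + z = (P.κ i ^ 2 * (p.1 * p.2) + P.τ i * p.1) + t * p.1
        then 1 else 0 := by
    refine Fintype.sum_bijective (fun d => P.κ i * p.1 * d) ?_ _ _ fun d => ?_
    · exact ⟨fun a b h => mul_left_cancel₀ hk h,
        fun z => ⟨(P.κ i * p.1)⁻¹ * z, mul_inv_cancel_left₀ hk z⟩⟩
    · exact if_congr (h1 d) rfl rfl
  rw [h3, ← Finset.card_filter, card_roots, tb_add]
  have h4 : ((xor (tb (P.κ i ^ 2 * (p.1 * p.2) + P.τ i * p.1)) (tb (t * p.1))) = false) ↔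
      bit P i p = tb (t * p.1) := by
    rw [bit]
    generalize tb (P.κ i ^ 2 * (p.1 * p.2) + P.τ i * p.1) = a
    generalize tb (t * p.1) = b
    revert a b
    decide
  exact if_congr h4 rfl rfl

open Classical in
lemma card_u_le (i : Fin 3) (t : F) (p : F × F) :
    ((Finset.univ.filter fun l : F × F => On l p).filter fun l => u P i l = t).card ≤ 2 := by
  by_cases hx : p.1 = 0
  · refine le_trans (Finset.card_le_one.2 ?_) one_le_two
    intro l hl l' hl'
    rw [Finset.mem_filter, Finset.mem_filter] at hl hl'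
    have h1 : p.2 = l.1 ^ 2 * p.1 + l.2 := hl.1.2
    have h2 : p.2 = l'.1 ^ 2 * p.1 + l'.2 := hl'.1.2
    rw [hx, mul_zero, zero_add] at h1 h2
    have h3 : P.κ i * l.1 + P.κ i ^ 2 * l.2 + P.τ i = P.κ i * l'.1 + P.κ i ^ 2 * l'.2 + P.τ i :=
      hl.2.trans hl'.2.symm
    rw [← h1, ← h2] at h3
    have h4 : P.κ i * l.1 = P.κ i * l'.1 := add_right_cancel (add_right_cancel h3)
    exact Prod.ext (mul_left_cancel₀ (P.κ_ne i) h4) (h1.symm.trans h2)
  · rw [card_u_eq P i t hx]
    split_ifs <;> omega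

open Classical in
lemma sum_n0 (L : Finset (F × F)) :
    ∑ l ∈ L, n0 P l = ∑ i : Fin 3, (L.filter fun l => u P i l = 0).card := by
  simp only [n0, Finset.card_filter]
  exact Finset.sum_comm

open Classical in
lemma sum_n1 (L : Finset (F × F)) :
    ∑ l ∈ L, n1 P l = ∑ i : Fin 3, (L.filter fun l => u P i l = 1).card := by
  simp only [n1, Finset.card_filter]
  exact Finset.sum_comm

lemma spl_iff (l : F × F) : Spl P l ↔ n1 P l = 3 := by
  classical
  rw [n1, Spl]
  constructor
  · intro h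
    rw [Finset.filter_true_of_mem fun i _ => h i]
    rfl
  · intro h i
    have h1 : (Finset.univ.filter fun i => u P i l = 1) = Finset.univ := by
      rw [← Finset.card_eq_iff_eq_univ, h]
      rfl
    have h2 := Finset.mem_univ i
    rw [← h1, Finset.mem_filter] at h2
    exact h2.2

lemma n1_le (l : F × F) : n1 P l ≤ 3 := by
  classical
  rw [n1]
  exact (Finset.card_le_univ _).trans (by simp)

lemma bw_ge (l : F × F) : 1 - (n0 P l : ℝ) - (n1 P l : ℝ) / 2 ≤ bw P l := by
  have h1 : (0 : ℝ) ≤ n1 P l := Nat.cast_nonneg _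
  rw [bw]
  split_ifs with h
  · rw [h.1, Nat.cast_zero]
    linarith
  · rcases Nat.eq_zero_or_pos (n0 P l) with h0 | h0
    · have h2 : 3 ≤ n1 P l := by
        by_contra h3
        exact h ⟨h0, by omega⟩
      have h3 : (3 : ℝ) ≤ n1 P l := by exact_mod_cast h2
      rw [h0, Nat.cast_zero]
      linarith
    · have h3 : (1 : ℝ) ≤ n0 P l := by exact_mod_cast h0
      linarith

open Classical in
lemma bw_eq (l : F × F) (h : n0 P l = 0 ∨ (n0 P l = 1 ∧ n1 P l = 0)) :
    bw P l = 1 - (n0 P l : ℝ) - (n1 P l : ℝ) / 2 + if Spl P l then 1 / 2 else 0 := by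
  rcases h with h | ⟨h, h'⟩
  · rw [bw, h]
    by_cases h1 : n1 P l = 3
    · rw [if_neg (by omega), if_pos ((spl_iff P l).2 h1), h1]
      norm_num
    · have := n1_le P l
      rw [if_pos ⟨rfl, by omega⟩, if_neg fun h2 => h1 ((spl_iff P l).1 h2), Nat.cast_zero]
      ring
  · rw [bw, if_neg (by omega), if_neg (fun h2 => by
      have := (spl_iff P l).1 h2
      omega), h, h']
    norm_num

lemma hub_x {p : F × F} (h : IsHub P p) : p.1 ≠ 0 := by
  intro hx
  have h1 : ∀ i, bit P i p = false := by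
    intro i
    rw [bit, hx, zero_mul, mul_zero, mul_zero, add_zero, tb_zero]
  rw [IsHub, card_bits, h1 0, h1 1, h1 2] at h
  simp at h

private lemma bools : ∀ b0 b1 b2 z0 z1 z2 o0 o1 o2 : Bool,
    2 ≤ b0.toNat + b1.toNat + b2.toNat →
    (z0 = true → b0 = false) → (z1 = true → b1 = false) → (z2 = true → b2 = false) →
    (o0 = true → b0 = xor (xor b0 b1) b2) → (o1 = true → b1 = xor (xor b0 b1) b2) →
    (o2 = true → b2 = xor (xor b0 b1) b2) →
    (z0 && o0) = false → (z1 && o1) = false → (z2 && o2) = false →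
    z0.toNat + z1.toNat + z2.toNat = 0 ∨
      (z0.toNat + z1.toNat + z2.toNat = 1 ∧ o0.toNat + o1.toNat + o2.toNat = 0) := by
  decide

open Classical in
lemma n0_eq (l : F × F) : n0 P l = (decide (u P 0 l = 0)).toNat + (decide (u P 1 l = 0)).toNat +
    (decide (u P 2 l = 0)).toNat := by
  rw [n0, Finset.card_filter, Fin.sum_univ_three]
  congr 1
  · congr 1
    all_goals split_ifs with h <;> simp [h]
  · split_ifs with h <;> simp [h]

open Classical in
lemma n1_eq (l : F × F) : n1 P l = (decide (u P 0 l = 1)).toNat + (decide (u P 1 l = 1)).toNat +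
    (decide (u P 2 l = 1)).toNat := by
  rw [n1, Finset.card_filter, Fin.sum_univ_three]
  congr 1
  · congr 1
    all_goals split_ifs with h <;> simp [h]
  · split_ifs with h <;> simp [h]

lemma hub_n {p : F × F} (h : IsHub P p) {l : F × F} (hl : On l p) :
    n0 P l = 0 ∨ (n0 P l = 1 ∧ n1 P l = 0) := by
  classical
  rw [n0_eq, n1_eq]
  have hb : ∀ i, u P i l = 0 → bit P i p = false := by
    intro i hi
    rw [bit_on P i hl, hi, zero_mul, tb_zero]
  have ho : ∀ i, u P i l = 1 → bit P i p = xor (xor (bit P 0 p) (bit P 1 p)) (bit P 2 p) := by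
    intro i hi
    rw [xor_bit, bit_on P i hl, hi, one_mul]
  have hn : ∀ i, (decide (u P i l = 0) && decide (u P i l = 1)) = false := by
    intro i
    rw [Bool.and_eq_false_iff, decide_eq_false_iff_not, decide_eq_false_iff_not]
    by_cases h1 : u P i l = 0
    · right
      rw [h1]
      exact zero_ne_one
    · exact Or.inl h1
  rw [IsHub, card_bits] at h
  exact bools _ _ _ _ _ _ _ _ _ h (fun h1 => hb 0 (of_decide_eq_true h1))
    (fun h1 => hb 1 (of_decide_eq_true h1)) (fun h1 => hb 2 (of_decide_eq_true h1))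
    (fun h1 => ho 0 (of_decide_eq_true h1)) (fun h1 => ho 1 (of_decide_eq_true h1))
    (fun h1 => ho 2 (of_decide_eq_true h1)) (hn 0) (hn 1) (hn 2)

private lemma bools2 : ∀ b0 b1 b2 : Bool, 2 ≤ b0.toNat + b1.toNat + b2.toNat →
    2 * ((if b0 = false then 2 else 0) + (if b1 = false then 2 else 0) +
      (if b2 = false then 2 else 0)) +
    ((if b0 = xor (xor b0 b1) b2 then 2 else 0) + (if b1 = xor (xor b0 b1) b2 then 2 else 0) +
      (if b2 = xor (xor b0 b1) b2 then 2 else 0)) = 6 := by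
  decide

open Classical in
lemma hub_sum {p : F × F} (h : IsHub P p) :
    2 * ∑ l ∈ Finset.univ.filter (fun l : F × F => On l p), n0 P l +
      ∑ l ∈ Finset.univ.filter (fun l : F × F => On l p), n1 P l = 6 := by
  have hx := hub_x P h
  rw [sum_n0, sum_n1, Fin.sum_univ_three, Fin.sum_univ_three]
  simp only [card_u_eq P _ _ hx]
  rw [zero_mul, one_mul, tb_zero, ← xor_bit P p]
  rw [IsHub, card_bits] at h
  exact bools2 _ _ _ h

theorem exists_spl : ∃ s, Spl P s ∧ ∀ s', Spl P s' → s' = s := by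
  have h0 := P.κ_ne 0
  have h1 := P.κ_ne 1
  have h2 : P.κ 0 + P.κ 1 ≠ 0 := by
    intro h
    have h3 := P.κ_sum
    rw [h, zero_add] at h3
    exact P.κ_ne 2 h3
  have hk2 : P.κ 2 = P.κ 0 + P.κ 1 := (CharTwo.add_eq_zero.1 P.κ_sum).symm
  set c := (P.κ 1 * (1 + P.τ 0) + P.κ 0 * (1 + P.τ 1)) / (P.κ 0 * P.κ 1 * (P.κ 0 + P.κ 1)) with hc
  have hc' : P.κ 0 * P.κ 1 * (P.κ 0 + P.κ 1) * c = P.κ 1 * (1 + P.τ 0) + P.κ 0 * (1 + P.τ 1) :=
    mul_div_cancel₀ _ (mul_ne_zero (mul_ne_zero h0 h1) h2)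
  have two : (2 : F) = 0 := CharTwo.two_eq_zero
  -- the solutions of the first two equations
  have key : ∀ s : F × F, (u P 0 s = 1 ∧ u P 1 s = 1) ↔
      (s.2 = c ∧ P.κ 0 * s.1 = 1 + P.τ 0 + P.κ 0 ^ 2 * c) := by
    intro s
    constructor
    · rintro ⟨e0, e1⟩
      rw [u] at e0 e1
      have e2 : P.κ 0 * P.κ 1 * (P.κ 0 + P.κ 1) * s.2 =
          P.κ 0 * P.κ 1 * (P.κ 0 + P.κ 1) * c := by
        rw [hc']
        linear_combination P.κ 1 * e0 + P.κ 0 * e1 - (P.κ 0 * P.κ 1 * s.1) * two -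
          (P.κ 1 * P.τ 0 + P.κ 0 * P.τ 1) * two
      have e3 : s.2 = c := mul_left_cancel₀ (mul_ne_zero (mul_ne_zero h0 h1) h2) e2
      refine ⟨e3, ?_⟩
      rw [e3] at e0
      linear_combination e0 - (P.κ 0 ^ 2 * c + P.τ 0) * two
    · rintro ⟨e3, e4⟩
      have e5 : u P 0 s = 1 := by
        rw [u, e3]
        linear_combination e4 + (P.κ 0 ^ 2 * c + P.τ 0) * two
      refine ⟨e5, ?_⟩
      rw [u] at e5 ⊢
      rw [e3] at e5 ⊢
      apply mul_left_cancel₀ h0
      linear_combination hc' - P.κ 1 * e5 + (P.κ 0 * P.κ 1 * s.1 + P.κ 1 * P.τ 0 +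
        P.κ 0 * P.τ 1) * two
  have third : ∀ s : F × F, u P 0 s = 1 → u P 1 s = 1 → u P 2 s = 1 := by
    intro s e0 e1
    have e2 := P.τ_sum
    rw [u] at e0 e1 ⊢
    rw [hk2]
    linear_combination e0 + e1 - e2 + (P.κ 0 * P.κ 1 * s.2 + P.τ 2 ) * two
  refine ⟨((1 + P.τ 0 + P.κ 0 ^ 2 * c) / P.κ 0, c), ?_, ?_⟩
  · obtain ⟨e0, e1⟩ := (key ((1 + P.τ 0 + P.κ 0 ^ 2 * c) / P.κ 0, c)).2
      ⟨rfl, mul_div_cancel₀ _ h0⟩
    intro i
    fin_cases i
    · exact e0
    · exact e1
    · exact third _ e0 e1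
  · intro s' hs
    obtain ⟨e0, e1⟩ := (key s').1 ⟨hs 0, hs 1⟩
    refine Prod.ext ?_ e0
    apply mul_left_cancel₀ h0
    rw [e1]
    exact (mul_div_cancel₀ _ h0).symm

open Classical in
lemma sum_spl (p : F × F) : ∑ l ∈ Finset.univ.filter (fun l : F × F => On l p),
    (if Spl P l then (1 / 2 : ℝ) else 0) = if ∃ s, Spl P s ∧ On s p then 1 / 2 else 0 := by
  obtain ⟨s, hs, huniq⟩ := exists_spl P
  split_ifs with h
  · obtain ⟨s', hs', hon⟩ := h
    rw [huniq s' hs'] at hon
    have h2 : s ∈ Finset.univ.filter fun l : F × F => On l p :=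
      Finset.mem_filter.2 ⟨Finset.mem_univ _, hon⟩
    rw [Finset.sum_eq_single_of_mem s h2]
    · rw [if_pos hs]
    · intro l _ hl
      exact if_neg fun h1 => hl (huniq l h1)
  · apply Finset.sum_eq_zero
    intro l hl
    rw [Finset.mem_filter] at hl
    exact if_neg fun h1 => h ⟨l, h1, hl.2⟩

open Classical in
theorem hub_load {p : F × F} (h : IsHub P p) :
    ∑ l ∈ Finset.univ.filter (fun l : F × F => On l p), bw P l =
      Fintype.card F - 3 + if ∃ s, Spl P s ∧ On s p then 1 / 2 else 0 := by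
  have h1 := hub_sum P h
  have h2 : 2 * ∑ l ∈ Finset.univ.filter (fun l : F × F => On l p), (n0 P l : ℝ) +
      ∑ l ∈ Finset.univ.filter (fun l : F × F => On l p), (n1 P l : ℝ) = 6 := by
    exact_mod_cast h1
  have h3 : ∑ l ∈ Finset.univ.filter (fun l : F × F => On l p), (1 : ℝ) = Fintype.card F := by
    rw [sum_thr p fun _ => (1 : ℝ), Finset.sum_const, Finset.card_univ, nsmul_eq_mul, mul_one]
  rw [← sum_spl P p, ← h3]
  rw [Finset.sum_congr rfl fun l hl => bw_eq P l (hub_n P h (Finset.mem_filter.1 hl).2),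
    Finset.sum_add_distrib, Finset.sum_sub_distrib, Finset.sum_sub_distrib, ← Finset.sum_div]
  linarith

open Classical in
/-- In a pencil at a hub at most six lines have a form equal to zero or one, and at most
two have a vanishing form. -/
theorem hub_bad {p : F × F} (h : IsHub P p) (L : Finset (F × F)) (hL : ∀ l ∈ L, On l p)
    (hs : ∀ l ∈ L, ¬ Spl P l) :
    (L.card : ℝ) - 3 ≤ ∑ l ∈ L, bw P l := by
  have h1 := hub_sum P h
  have h2 : 2 * ∑ l ∈ Finset.univ.filter (fun l : F × F => On l p), (n0 P l : ℝ) +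
      ∑ l ∈ Finset.univ.filter (fun l : F × F => On l p), (n1 P l : ℝ) = 6 := by
    exact_mod_cast h1
  have hsub : L ⊆ Finset.univ.filter fun l : F × F => On l p :=
    fun l hl => Finset.mem_filter.2 ⟨Finset.mem_univ _, hL l hl⟩
  have h3 : ∑ l ∈ L, (n0 P l : ℝ) ≤
      ∑ l ∈ Finset.univ.filter (fun l : F × F => On l p), (n0 P l : ℝ) :=
    Finset.sum_le_sum_of_subset_of_nonneg hsub fun _ _ _ => Nat.cast_nonneg _
  have h4 : ∑ l ∈ L, (n1 P l : ℝ) ≤
      ∑ l ∈ Finset.univ.filter (fun l : F × F => On l p), (n1 P l : ℝ) :=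
    Finset.sum_le_sum_of_subset_of_nonneg hsub fun _ _ _ => Nat.cast_nonneg _
  have h5 : ∑ l ∈ L, (1 - (n0 P l : ℝ) - (n1 P l : ℝ) / 2) ≤ ∑ l ∈ L, bw P l :=
    Finset.sum_le_sum fun l _ => bw_ge P l
  rw [Finset.sum_sub_distrib, Finset.sum_sub_distrib, ← Finset.sum_div, Finset.sum_const,
    nsmul_eq_mul, mul_one] at h5
  linarith

open Classical in
theorem pencil_ge (p : F × F) : (Fintype.card F : ℝ) - 12 ≤
    ∑ l ∈ Finset.univ.filter (fun l : F × F => On l p), bw P l := by
  have h1 : ∑ l ∈ Finset.univ.filter (fun l : F × F => On l p), n0 P l ≤ 6 := by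
    rw [sum_n0, Fin.sum_univ_three]
    have := card_u_le P 0 0 p
    have := card_u_le P 1 0 p
    have := card_u_le P 2 0 p
    omega
  have h2 : ∑ l ∈ Finset.univ.filter (fun l : F × F => On l p), n1 P l ≤ 6 := by
    rw [sum_n1, Fin.sum_univ_three]
    have := card_u_le P 0 1 p
    have := card_u_le P 1 1 p
    have := card_u_le P 2 1 p
    omega
  have h1' : ∑ l ∈ Finset.univ.filter (fun l : F × F => On l p), (n0 P l : ℝ) ≤ 6 := by
    exact_mod_cast h1
  have h2' : ∑ l ∈ Finset.univ.filter (fun l : F × F => On l p), (n1 P l : ℝ) ≤ 6 := by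
    exact_mod_cast h2
  have h3 : ∑ l ∈ Finset.univ.filter (fun l : F × F => On l p), (1 : ℝ) = Fintype.card F := by
    rw [sum_thr p fun _ => (1 : ℝ), Finset.sum_const, Finset.card_univ, nsmul_eq_mul, mul_one]
  have h5 : ∑ l ∈ Finset.univ.filter (fun l : F × F => On l p),
      (1 - (n0 P l : ℝ) - (n1 P l : ℝ) / 2) ≤
      ∑ l ∈ Finset.univ.filter (fun l : F × F => On l p), bw P l :=
    Finset.sum_le_sum fun l _ => bw_ge P l
  rw [Finset.sum_sub_distrib, Finset.sum_sub_distrib, ← Finset.sum_div, h3] at h5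
  linarith

open Classical in
lemma card_u_dir (i : Fin 3) (t d : F) :
    ((Finset.univ.filter fun l : F × F => l.1 = d).filter fun l => u P i l = t).card ≤ 1 := by
  rw [Finset.card_le_one]
  intro l hl l' hl'
  rw [Finset.mem_filter, Finset.mem_filter] at hl hl'
  have h1 : l.1 = l'.1 := hl.1.2.trans hl'.1.2.symm
  have h3 : P.κ i * l.1 + P.κ i ^ 2 * l.2 + P.τ i = P.κ i * l'.1 + P.κ i ^ 2 * l'.2 + P.τ i :=
    hl.2.trans hl'.2.symm
  rw [h1] at h3
  have h4 := add_left_cancel (add_right_cancel h3)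
  exact Prod.ext h1 (mul_left_cancel₀ (pow_ne_zero 2 (P.κ_ne i)) h4)

open Classical in
theorem dir_ge (d : F) : (Fintype.card F : ℝ) - 6 ≤
    ∑ l ∈ Finset.univ.filter (fun l : F × F => l.1 = d), bw P l := by
  have h1 : ∑ l ∈ Finset.univ.filter (fun l : F × F => l.1 = d), n0 P l ≤ 3 := by
    rw [sum_n0, Fin.sum_univ_three]
    have := card_u_dir P 0 0 d
    have := card_u_dir P 1 0 d
    have := card_u_dir P 2 0 d
    omega
  have h2 : ∑ l ∈ Finset.univ.filter (fun l : F × F => l.1 = d), n1 P l ≤ 3 := by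
    rw [sum_n1, Fin.sum_univ_three]
    have := card_u_dir P 0 1 d
    have := card_u_dir P 1 1 d
    have := card_u_dir P 2 1 d
    omega
  have h1' : ∑ l ∈ Finset.univ.filter (fun l : F × F => l.1 = d), (n0 P l : ℝ) ≤ 3 := by
    exact_mod_cast h1
  have h2' : ∑ l ∈ Finset.univ.filter (fun l : F × F => l.1 = d), (n1 P l : ℝ) ≤ 3 := by
    exact_mod_cast h2
  have h3 : ∑ l ∈ Finset.univ.filter (fun l : F × F => l.1 = d), (1 : ℝ) = Fintype.card F := by
    rw [Finset.sum_const, nsmul_eq_mul, mul_one]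
    have h4 : (Finset.univ.filter fun l : F × F => l.1 = d) =
        Finset.univ.image fun c : F => (d, c) := by
      ext l
      simp only [Finset.mem_filter, Finset.mem_univ, true_and, Finset.mem_image]
      constructor
      · intro h
        exact ⟨l.2, Prod.ext h.symm rfl⟩
      · rintro ⟨c, rfl⟩
        rfl
    rw [h4, Finset.card_image_of_injective _ fun a b h => congrArg Prod.snd h, Finset.card_univ]
  have h5 : ∑ l ∈ Finset.univ.filter (fun l : F × F => l.1 = d),
      (1 - (n0 P l : ℝ) - (n1 P l : ℝ) / 2) ≤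
      ∑ l ∈ Finset.univ.filter (fun l : F × F => l.1 = d), bw P l :=
    Finset.sum_le_sum fun l _ => bw_ge P l
  rw [Finset.sum_sub_distrib, Finset.sum_sub_distrib, ← Finset.sum_div, h3] at h5
  linarith

theorem exists_par (h : 4 ≤ Fintype.card F) : Nonempty (Par F) := by
  classical
  obtain ⟨a, ha⟩ : ∃ a : F, a ∉ ({0, 1} : Finset F) := by
    by_contra h1
    push Not at h1
    have h2 : (Finset.univ : Finset F) ⊆ {0, 1} := fun x _ => h1 x
    have h3 := Finset.card_le_card h2
    rw [Finset.card_univ] at h3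
    have h4 := Finset.card_le_two (a := (0 : F)) (b := 1)
    omega
  rw [Finset.mem_insert, Finset.mem_singleton, not_or] at ha
  refine ⟨⟨![1, a, 1 + a], ![0, 0, 1], ?_, ?_, ?_⟩⟩
  · intro i
    fin_cases i
    · exact one_ne_zero
    · exact ha.1
    · intro h1
      exact ha.2 (CharTwo.add_eq_zero.1 h1).symm
  · show (1 : F) + a + (1 + a) = 0
    exact CharTwo.add_self_eq_zero _
  · show (0 : F) + 0 + 1 = 1
    rw [zero_add, zero_add]

end Pool.Agent.Helper32.SL
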