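import Pool.Agent.Helper32.LK.Final

/-!
# The leading constants `γ_k` and `γ'_k`, and their asymptotics

The upper bound is `Helper32.LK.M_large`, the lower bound is a hypothesis of `limit_of`.
-/

set_option autoImplicit false

namespace Pool.Agent.Helper32.SL

open Pool.Agent.Helper14.Square Pool.Agent.Helper32.Sq Filter Topology

/-- `γ_k`: the infimum of the real `g` such that `M_k(D) ≤ g D + C` for some `C` and all `D`. -/
noncomputable def gamma (k : ℕ) : ℝ :=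
  sInf {g : ℝ | ∃ C : ℝ, ∀ D : ℕ, (M k D : ℝ) ≤ g * D + C}

/-- `γ'_k`: the infimum of the real `g` such that `M'_k(D) ≤ g D + C` for some `C` and all `D`. -/
noncomputable def gamma' (k : ℕ) : ℝ :=
  sInf {g : ℝ | ∃ C : ℝ, ∀ D : ℕ, (M' k D : ℝ) ≤ g * D + C}

lemma le_of_bounds {f : ℕ → ℝ} {a g C C' : ℝ} (h : ∀ D : ℕ, a * D - C ≤ f D)
    (h' : ∀ D : ℕ, f D ≤ g * D + C') : a ≤ g := by
  by_contra hlt
  push Not at hlt
  obtain ⟨n, hn⟩ := exists_nat_gt ((C + C') / (a - g))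
  rw [div_lt_iff₀ (by linarith)] at hn
  have h1 := h n
  have h2 := h' n
  nlinarith

lemma bdd {f : ℕ → ℝ} (hf : ∀ D, 0 ≤ f D) :
    BddBelow {g : ℝ | ∃ C : ℝ, ∀ D : ℕ, f D ≤ g * D + C} := by
  refine ⟨0, ?_⟩
  rintro g ⟨C, hC⟩
  exact le_of_bounds (a := 0) (C := 0) (fun D => by simpa using hf D) hC

lemma gamma'_le {k : ℕ} {g C : ℝ} (h : ∀ D : ℕ, (M' k D : ℝ) ≤ g * D + C) : gamma' k ≤ g :=
  csInf_le (bdd fun _ => Nat.cast_nonneg _) ⟨C, h⟩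

lemma le_gamma {k : ℕ} {a g C C' : ℝ} (h : ∀ D : ℕ, a * D - C ≤ (M k D : ℝ))
    (h' : ∀ D : ℕ, (M k D : ℝ) ≤ g * D + C') : a ≤ gamma k := by
  refine le_csInf ⟨g, C', h'⟩ ?_
  rintro b ⟨C'', hb⟩
  exact le_of_bounds h hb

lemma gamma_le_gamma' {k : ℕ} {g C : ℝ}
    (h : ∀ D : ℕ, (M k D : ℝ) ≤ M' k D ∧ (M' k D : ℝ) ≤ g * D + C) : gamma k ≤ gamma' k := by
  refine csInf_le_csInf (bdd fun _ => Nat.cast_nonneg _) ⟨g, C, fun D => (h D).2⟩ ?_
  rintro b ⟨C', hb⟩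
  exact ⟨C', fun D => (h D).1.trans (hb D)⟩

lemma upper (η : ℝ) (hη : 0 < η) : ∃ k0 : ℕ, ∀ k : ℕ, k0 ≤ k →
    gamma k ≤ gamma' k ∧ gamma' k ≤ 2 * k - 3 / 2 + η := by
  obtain ⟨k0, h⟩ := Pool.Agent.Helper32.LK.M_large η hη
  refine ⟨k0, fun k hk => ?_⟩
  obtain ⟨C, hC⟩ := h k hk
  exact ⟨gamma_le_gamma' hC, gamma'_le fun D => (hC D).2⟩

/-- The asymptotics of `γ_k` and `γ'_k`, from the lower bound for the powers of two. -/
theorem limit_of (sharp : ∃ J : ℕ, ∀ j : ℕ, J ≤ j → ∃ C : ℝ, ∀ D : ℕ,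
      (2 * (2 : ℝ) ^ j - 3 / 2 - 4 / (2 : ℝ) ^ j) * D - C ≤ M (2 ^ j) D) :
    Tendsto (fun j : ℕ => gamma (2 ^ j) - 2 * 2 ^ j) atTop (𝓝 (-(3 / 2))) ∧
    Tendsto (fun j : ℕ => gamma' (2 ^ j) - 2 * 2 ^ j) atTop (𝓝 (-(3 / 2))) ∧
    limsup (fun k : ℕ => ((gamma k - 2 * k : ℝ) : EReal)) atTop = ((-(3 / 2) : ℝ) : EReal) ∧
    limsup (fun k : ℕ => ((gamma' k - 2 * k : ℝ) : EReal)) atTop = ((-(3 / 2) : ℝ) : EReal) := by
  obtain ⟨J, hJ⟩ := sharp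
  obtain ⟨k1, h1⟩ := Pool.Agent.Helper32.LK.M_large 1 one_pos
  have hlow : ∀ j : ℕ, max J k1 ≤ j →
      2 * (2 : ℝ) ^ j - 3 / 2 - 4 / (2 : ℝ) ^ j ≤ gamma (2 ^ j) := by
    intro j hj
    obtain ⟨C, hC⟩ := hJ j ((le_max_left _ _).trans hj)
    obtain ⟨C', hC'⟩ := h1 (2 ^ j) (((le_max_right _ _).trans hj).trans (Nat.lt_two_pow_self).le)
    exact le_gamma hC fun D => (hC' D).1.trans (hC' D).2
  have hpow : Tendsto (fun j : ℕ => 4 / (2 : ℝ) ^ j) atTop (𝓝 0) :=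
    tendsto_const_nhds.div_atTop (tendsto_pow_atTop_atTop_of_one_lt one_lt_two)
  have key : ∀ η : ℝ, 0 < η → ∃ N : ℕ, ∀ j : ℕ, N ≤ j →
      -(3 / 2) - η ≤ gamma (2 ^ j) - 2 * 2 ^ j ∧ gamma (2 ^ j) ≤ gamma' (2 ^ j) ∧
        gamma' (2 ^ j) - 2 * 2 ^ j ≤ -(3 / 2) + η := by
    intro η hη
    obtain ⟨k0, hk0⟩ := upper η hη
    obtain ⟨N, hN⟩ := eventually_atTop.1 (hpow.eventually (gt_mem_nhds hη))
    refine ⟨max (max J k1) (max k0 N), fun j hj => ?_⟩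
    have g1 := hlow j ((le_max_left _ _).trans hj)
    have g2 := hN j (((le_max_right _ _).trans (le_max_right _ _)).trans hj)
    have g3 := hk0 (2 ^ j) ((((le_max_left _ _).trans (le_max_right _ _)).trans hj).trans
      (Nat.lt_two_pow_self).le)
    push_cast at g3
    refine ⟨by linarith, g3.1, by linarith [g3.2]⟩
  have t1 : Tendsto (fun j : ℕ => gamma (2 ^ j) - 2 * 2 ^ j) atTop (𝓝 (-(3 / 2))) := by
    rw [Metric.tendsto_atTop]
    intro ε hε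
    obtain ⟨N, hN⟩ := key (ε / 2) (by linarith)
    refine ⟨N, fun j hj => ?_⟩
    obtain ⟨a1, a2, a3⟩ := hN j hj
    rw [Real.dist_eq, abs_lt]
    constructor <;> linarith
  have t2 : Tendsto (fun j : ℕ => gamma' (2 ^ j) - 2 * 2 ^ j) atTop (𝓝 (-(3 / 2))) := by
    rw [Metric.tendsto_atTop]
    intro ε hε
    obtain ⟨N, hN⟩ := key (ε / 2) (by linarith)
    refine ⟨N, fun j hj => ?_⟩
    obtain ⟨a1, a2, a3⟩ := hN j hj
    rw [Real.dist_eq, abs_lt]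
    constructor <;> linarith
  -- the upper limits
  have sup : ∀ f : ℕ → ℝ, (∀ η : ℝ, 0 < η → ∃ k0 : ℕ, ∀ k : ℕ, k0 ≤ k → f k ≤ -(3 / 2) + η) →
      (∀ η : ℝ, 0 < η → ∃ N : ℕ, ∀ j : ℕ, N ≤ j → -(3 / 2) - η ≤ f (2 ^ j)) →
      limsup (fun k : ℕ => ((f k : ℝ) : EReal)) atTop = ((-(3 / 2) : ℝ) : EReal) := by
    intro f hu hl
    apply le_antisymm
    · apply le_of_forall_gt_imp_ge_of_dense
      intro c hc
      obtain ⟨x, hx1, hx2⟩ := EReal.lt_iff_exists_real_btwn.1 hc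
      refine le_trans ?_ hx2.le
      obtain ⟨k0, hk0⟩ := hu (x - -(3 / 2)) (sub_pos.2 (EReal.coe_lt_coe_iff.1 hx1))
      refine limsup_le_of_le (by isBoundedDefault) ?_
      filter_upwards [eventually_ge_atTop k0] with k hk
      have := hk0 k hk
      exact EReal.coe_le_coe_iff.2 (by linarith)
    · apply le_of_forall_lt_imp_le_of_dense
      intro c hc
      obtain ⟨x, hx1, hx2⟩ := EReal.lt_iff_exists_real_btwn.1 hc
      refine hx1.le.trans ?_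
      obtain ⟨N, hN⟩ := hl (-(3 / 2) - x) (sub_pos.2 (EReal.coe_lt_coe_iff.1 hx2))
      refine le_limsup_of_frequently_le ?_ (by isBoundedDefault)
      rw [frequently_atTop]
      intro a
      refine ⟨2 ^ (max a N), ?_, ?_⟩
      · exact (le_max_left a N).trans (Nat.lt_two_pow_self).le
      · have := hN (max a N) (le_max_right _ _)
        exact EReal.coe_le_coe_iff.2 (by linarith)
  refine ⟨t1, t2, ?_, ?_⟩
  · refine sup (fun k => gamma k - 2 * k) ?_ ?_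
    · intro η hη
      obtain ⟨k0, hk0⟩ := upper η hη
      exact ⟨k0, fun k hk => by linarith [(hk0 k hk).1, (hk0 k hk).2]⟩
    · intro η hη
      obtain ⟨N, hN⟩ := key η hη
      refine ⟨N, fun j hj => ?_⟩
      push_cast
      exact (hN j hj).1
  · refine sup (fun k => gamma' k - 2 * k) ?_ ?_
    · intro η hη
      obtain ⟨k0, hk0⟩ := upper η hη
      exact ⟨k0, fun k hk => by linarith [(hk0 k hk).2]⟩
    · intro η hη
      obtain ⟨N, hN⟩ := key η hη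
      refine ⟨N, fun j hj => ?_⟩
      push_cast
      linarith [(hN j hj).1, (hN j hj).2.1]

end Pool.Agent.Helper32.SL
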